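import Mathlib
import Pool.Agent.H985.Par.Final
import Pool.Agent.H140.PS.Lam

/-!
# Sifted values of linear forms over `F_q[X]`, `q` even, uniformly in the slopes (helper985):
statements of the parts
-/

namespace Pool.Agent.H985.US

open Polynomial Finset
open scoped Classical
open Pool.Agent.H524.Cw (lio)
open Pool.Agent.H985.Par (Sft)
open Pool.Agent.H694.Typ (Mn Irn PU)

/-- The monic `f` of degree `n` such that no `a i * f + b i` has an irreducible factor of degree at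
most `m`. -/
noncomputable def Us (K : Type) [Field K] [Fintype K] {k : ℕ} (a b : Fin k → K[X]) (n m : ℕ) :
    Finset K[X] := (Mn K n).filter (fun f => ∀ i, Sft m (a i * f + b i))

/-- The number of the residue classes `r` modulo `P` such that `P` divides some `a i * r + b i`. -/
noncomputable def om {K : Type} [Field K] {k : ℕ} (a b : Fin k → K[X]) (P : K[X]) : ℕ :=
  {r : K[X] | r.degree < P.degree ∧ ∃ i, P ∣ a i * r + b i}.ncard

/-- The density of the sifted set. -/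
noncomputable def Vu {K : Type} [Field K] [Fintype K] {k : ℕ} (a b : Fin k → K[X]) (m : ℕ) : ℝ :=
  ∏ P ∈ PU K m, (1 - (om a b P : ℝ) / (Fintype.card K : ℝ) ^ P.natDegree)

/-- The forms are admissible. -/
def Adm {K : Type} [Field K] {k : ℕ} (a b : Fin k → K[X]) : Prop :=
  ∀ P : K[X], P.Monic → Irreducible P → ∃ x : K[X], ∀ i, ¬ P ∣ a i * x + b i

/-- The forms are pairwise not proportional, of small degree, with small constant terms. -/
def Ok {K : Type} [Field K] {k : ℕ} (κ : ℝ) (n : ℕ) (a b : Fin k → K[X]) : Prop :=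
  (∀ i, a i ≠ 0 ∧ ((a i).natDegree : ℝ) ≤ κ * n ∧ (b i).natDegree < n + (a i).natDegree) ∧
    ∀ i j, i ≠ j → a i * b j ≠ a j * b i

/-- **Task US-V.** -/
def S_usv : Prop :=
  ∀ (K : Type) [Field K] [Fintype K] (k : ℕ), ∃ c : ℝ, 0 < c ∧ ∀ (m : ℕ) (a b : Fin k → K[X]),
    1 ≤ m → Adm a b → c / (m : ℝ) ^ k ≤ Vu a b m

/-- **Task US-S.** -/
def S_uss : Prop :=
  ∀ (K : Type) [Field K] [Fintype K] [CharP K 2] (k : ℕ) (ε : ℝ), 0 < ε →
    ∃ κ : ℝ, 0 < κ ∧ ∃ n₀ : ℕ, ∀ n : ℕ, n₀ ≤ n → ∀ (m : ℕ) (a b : Fin k → K[X]), 1 ≤ m →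
      (m : ℝ) ≤ κ * n → Ok κ n a b → Adm a b →
      |((Us K a b n m).card : ℝ) - Vu a b m * (Fintype.card K : ℝ) ^ n| ≤
        ε * (Vu a b m * (Fintype.card K : ℝ) ^ n) ∧
      ∀ S : Finset (Fin k), S.Nonempty →
        |∑ f ∈ Us K a b n m, ∏ i ∈ S, (lio (a i * f + b i) : ℝ)| ≤
          ε * (Vu a b m * (Fintype.card K : ℝ) ^ n)

end Pool.Agent.H985.US
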