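import Mathlib
import Pool.Agent.H985.US.Stm
import Pool.Agent.H985.CG.Fin2

/-!
# Sifted values of linear forms over `F_q[X]`, `q` even, uniformly in the slopes (helper985):
patterns and almost primes
-/

set_option autoImplicit false

namespace Pool.Agent.H985.US

open Polynomial Finset
open scoped Classical
open Pool.Agent.H524.Cw (lio)
open Pool.Agent.H985.Chow (mob)
open Pool.Agent.H985.CG (form_ne form_deg form_lc nrm_unit)
open Pool.Agent.H985.Par (Sft Sft_irr factors_le)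
open Pool.Agent.H694.Typ (Mn Irn mem_Mn mem_Irn card_Mn PU mem_PU)
open UniqueFactorizationMonoid (factors)

variable {K : Type} [Field K] [Fintype K]

theorem mem_Us {k : ℕ} {a b : Fin k → K[X]} {n m : ℕ} {f : K[X]} :
    f ∈ Us K a b n m ↔ (f.Monic ∧ f.natDegree = n) ∧ ∀ i, Sft m (a i * f + b i) := by
  unfold Us
  rw [mem_filter, mem_Mn]

/-- those with some value not squarefree -/
theorem bad_us {k : ℕ} (n m : ℕ) (a b : Fin k → K[X]) (ha : ∀ i, a i ≠ 0)
    (hb : ∀ i, (b i).natDegree < n + (a i).natDegree) :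
    (((Us K a b n m).filter (fun f => ∃ i, ¬ Squarefree (a i * f + b i))).card : ℝ) ≤
      (∑ i, (Fintype.card K : ℝ) ^ (a i).natDegree) *
        ((Fintype.card K : ℝ) ^ n * (2 / (Fintype.card K : ℝ) ^ (m + 1))) := by
  have hsub : (Us K a b n m).filter (fun f => ∃ i, ¬ Squarefree (a i * f + b i)) ⊆
      (Finset.univ : Finset (Fin k)).biUnion fun i =>
        (Us K a b n m).filter (fun f => ¬ Squarefree (a i * f + b i)) := by
    intro p hp
    rw [mem_filter] at hp
    obtain ⟨h1, i, hi⟩ := hp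
    rw [mem_biUnion]
    exact ⟨i, mem_univ _, mem_filter.2 ⟨h1, hi⟩⟩
  have h1 : ∀ i : Fin k, (((Us K a b n m).filter
      (fun f => ¬ Squarefree (a i * f + b i))).card : ℝ) ≤
      (Fintype.card K : ℝ) ^ (a i).natDegree *
        ((Fintype.card K : ℝ) ^ n * (2 / (Fintype.card K : ℝ) ^ (m + 1))) := by
    intro i
    have h2 := Pool.Agent.H985.CH.Buchw.card_Sq (K := K) (n + (a i).natDegree) (m + 1) (by omega)
    rw [pow_add] at h2
    have h3 : (((Us K a b n m).filter (fun f => ¬ Squarefree (a i * f + b i))).card : ℝ) ≤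
        ((Pool.Agent.H985.CH.Buchw.Sq K (n + (a i).natDegree) (m + 1)).card : ℝ) := by
      norm_cast
      refine Finset.card_le_card_of_injOn
        (fun f => (a i * f + b i) * C ((a i).leadingCoeff)⁻¹) ?_ ?_
      · intro f hf
        rw [mem_coe, mem_filter, mem_Us] at hf
        obtain ⟨⟨⟨hf1, hf2⟩, hf3⟩, hf4⟩ := hf
        rw [mem_coe]
        unfold Pool.Agent.H985.CH.Buchw.Sq
        rw [mem_filter, mem_Mn]
        have hne := form_ne (ha i) (hb i) hf1 hf2
        refine ⟨⟨?_, ?_⟩, ?_⟩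
        · rw [← form_lc (ha i) (hb i) hf1 hf2]
          exact monic_mul_leadingCoeff_inv hne
        · rw [← form_deg (ha i) (hb i) hf1 hf2, ← form_lc (ha i) (hb i) hf1 hf2]
          apply natDegree_mul_leadingCoeff_self_inv
        · rw [squarefree_iff_irreducible_sq_not_dvd_of_ne_zero hne] at hf4
          push Not at hf4
          obtain ⟨P, hP, hPd⟩ := hf4
          have hu : IsUnit (C (P.leadingCoeff)⁻¹ : K[X]) := nrm_unit hP.ne_zero
          refine ⟨P * C (P.leadingCoeff)⁻¹, monic_mul_leadingCoeff_inv hP.ne_zero,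
            (irreducible_mul_isUnit hu).2 hP, ?_, ?_⟩
          · have h2 := Sft_irr (hf3 i) hP ((dvd_mul_right P P).trans hPd)
            have h3 : (P * C (P.leadingCoeff)⁻¹).natDegree = P.natDegree := by
              apply natDegree_mul_leadingCoeff_self_inv
            omega
          · rw [mul_pow, (hu.pow 2).mul_right_dvd, sq]
            exact hPd.mul_right _
      · intro f _ f' _ hff
        have h4 := mul_right_cancel₀ (nrm_unit (ha i)).ne_zero hff
        exact mul_left_cancel₀ (ha i) (add_right_cancel h4)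
    refine h3.trans (h2.trans (le_of_eq ?_))
    ring
  have h2 := (Finset.card_le_card hsub).trans Finset.card_biUnion_le
  have h3 : (((Us K a b n m).filter (fun f => ∃ i, ¬ Squarefree (a i * f + b i))).card : ℝ) ≤
      ∑ i : Fin k, (((Us K a b n m).filter
        (fun f => ¬ Squarefree (a i * f + b i))).card : ℝ) := by
    exact_mod_cast h2
  refine h3.trans ((Finset.sum_le_sum fun i _ => h1 i).trans ?_)
  rw [Finset.sum_mul]

omit [Fintype K] in
/-- counting a pattern of signs -/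
theorem patt_id {k : ℕ} (F : Finset K[X]) (x : Fin k → K[X] → ℤ)
    (hx : ∀ f ∈ F, ∀ i, x i f = 1 ∨ x i f = -1) (σ : Fin k → ℤ) (hσ : ∀ i, σ i = 1 ∨ σ i = -1) :
    (2 : ℝ) ^ k * ((F.filter (fun f => ∀ i, x i f = σ i)).card : ℝ) =
      ∑ S : Finset (Fin k), (∏ i ∈ S, (σ i : ℝ)) * ∑ f ∈ F, ∏ i ∈ S, (x i f : ℝ) := by
  have h1 : ∀ f ∈ F, (∏ i : Fin k, ((1 : ℝ) + σ i * x i f)) =
      if (∀ i, x i f = σ i) then (2 : ℝ) ^ k else 0 := by
    intro f hf
    by_cases h : ∀ i, x i f = σ i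
    · rw [if_pos h]
      have h2 : ∀ i : Fin k, ((1 : ℝ) + σ i * x i f) = 2 := by
        intro i
        rw [h i]
        rcases hσ i with h3 | h3 <;> rw [h3] <;> norm_num
      rw [Finset.prod_congr rfl fun i _ => h2 i, Finset.prod_const, Finset.card_univ,
        Fintype.card_fin]
    · rw [if_neg h]
      push Not at h
      obtain ⟨i, hi⟩ := h
      refine Finset.prod_eq_zero (Finset.mem_univ i) ?_
      rcases hσ i with h3 | h3 <;> rcases hx f hf i with h4 | h4
      · exact absurd (h4.trans h3.symm) hi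
      · rw [h3, h4]; norm_num
      · rw [h3, h4]; norm_num
      · exact absurd (h4.trans h3.symm) hi
  have h5 : (2 : ℝ) ^ k * ((F.filter (fun f => ∀ i, x i f = σ i)).card : ℝ) =
      ∑ f ∈ F, ∏ i : Fin k, ((1 : ℝ) + σ i * x i f) := by
    rw [Finset.sum_congr rfl h1, ← Finset.sum_filter, Finset.sum_const, nsmul_eq_mul, mul_comm]
  rw [h5]
  have h6 : ∀ f ∈ F, ∏ i : Fin k, ((1 : ℝ) + σ i * x i f) =
      ∑ S : Finset (Fin k), ∏ i ∈ S, ((σ i : ℝ) * x i f) := by
    intro f _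
    rw [Finset.prod_one_add, Finset.powerset_univ]
  rw [Finset.sum_congr rfl h6, Finset.sum_comm]
  refine Finset.sum_congr rfl fun S _ => ?_
  rw [Finset.mul_sum]
  exact Finset.sum_congr rfl fun f _ => Finset.prod_mul_distrib

omit [Fintype K] in
theorem lio_val {F : K[X]} (hF : F ≠ 0) : lio F = 1 ∨ lio F = -1 := by
  unfold lio
  rw [if_neg hF]
  exact neg_one_pow_eq_or ℤ _

/-- **The patterns of parities in the sifted sets, uniformly in the slopes.** -/
theorem us_patt (hus : S_uss) (hv : S_usv) (K : Type) [Field K] [Fintype K] [CharP K 2] (k : ℕ)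
    (ε : ℝ) (hε : 0 < ε) :
    ∃ κ : ℝ, 0 < κ ∧ ∃ n₀ : ℕ, ∀ n : ℕ, n₀ ≤ n → ∀ (m : ℕ) (a b : Fin k → K[X]), 1 ≤ m →
      (m : ℝ) ≤ κ * n → Ok κ n a b → Adm a b →
      0 < Vu a b m ∧
      |((Us K a b n m).card : ℝ) - Vu a b m * (Fintype.card K : ℝ) ^ n| ≤
        ε * (Vu a b m * (Fintype.card K : ℝ) ^ n) ∧
      ∀ σ : Fin k → ℤ, (∀ i, σ i = 1 ∨ σ i = -1) →
        |(((Us K a b n m).filter (fun f => ∀ i, lio (a i * f + b i) = σ i)).card : ℝ) -
          Vu a b m * (Fintype.card K : ℝ) ^ n / 2 ^ k| ≤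
            ε * (Vu a b m * (Fintype.card K : ℝ) ^ n) := by
  obtain ⟨κ, hκ, n₀, h⟩ := hus K k ε hε
  obtain ⟨c, hc, hv'⟩ := hv K k
  refine ⟨κ, hκ, n₀, fun n hn m a b hm hmκ hok hadm => ?_⟩
  obtain ⟨h1, h2⟩ := h n hn m a b hm hmκ hok hadm
  have hV : 0 < Vu a b m := by
    refine lt_of_lt_of_le ?_ (hv' m a b hm hadm)
    have : (0 : ℝ) < m := by exact_mod_cast hm
    positivity
  refine ⟨hV, h1, fun σ hσ => ?_⟩
  have h3 := patt_id (Us K a b n m) (fun i f => lio (a i * f + b i)) (fun f hf i => by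
    rw [mem_Us] at hf
    exact lio_val (form_ne (hok.1 i).1 (hok.1 i).2.2 hf.1.1 hf.1.2)) σ hσ
  rw [← Finset.add_sum_erase Finset.univ _ (Finset.mem_univ (∅ : Finset (Fin k)))] at h3
  simp only [Finset.prod_empty, one_mul, Finset.sum_const, nsmul_eq_mul, mul_one] at h3
  set W : ℝ := Vu a b m * (Fintype.card K : ℝ) ^ n with hW
  have hW0 : 0 ≤ W := by positivity
  have h4 : |∑ S ∈ Finset.univ.erase (∅ : Finset (Fin k)), (∏ i ∈ S, (σ i : ℝ)) *
      ∑ f ∈ Us K a b n m, ∏ i ∈ S, (lio (a i * f + b i) : ℝ)| ≤ (2 ^ k - 1) * (ε * W) := by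
    refine (Finset.abs_sum_le_sum_abs _ _).trans ?_
    have h5 : ∀ S ∈ Finset.univ.erase (∅ : Finset (Fin k)), |(∏ i ∈ S, (σ i : ℝ)) *
        ∑ f ∈ Us K a b n m, ∏ i ∈ S, (lio (a i * f + b i) : ℝ)| ≤ ε * W := by
      intro S hS
      rw [abs_mul, Finset.abs_prod]
      have h6 : ∏ i ∈ S, |(σ i : ℝ)| = 1 := Finset.prod_eq_one fun i _ => by
        rcases hσ i with h | h <;> rw [h] <;> norm_num
      rw [h6, one_mul]
      exact h2 S (Finset.nonempty_iff_ne_empty.2 (Finset.ne_of_mem_erase hS))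
    refine (Finset.sum_le_sum h5).trans (le_of_eq ?_)
    rw [Finset.sum_const, Finset.card_erase_of_mem (Finset.mem_univ _), Finset.card_univ,
      Fintype.card_finset, Fintype.card_fin, nsmul_eq_mul, Nat.cast_sub Nat.one_le_two_pow]
    push_cast
    ring
  have h7 : (2 : ℝ) ^ k * ((((Us K a b n m).filter
      (fun f => ∀ i, lio (a i * f + b i) = σ i)).card : ℝ) - W / 2 ^ k) =
      (((Us K a b n m).card : ℝ) - W) + ∑ S ∈ Finset.univ.erase (∅ : Finset (Fin k)),
        (∏ i ∈ S, (σ i : ℝ)) * ∑ f ∈ Us K a b n m, ∏ i ∈ S, (lio (a i * f + b i) : ℝ) := by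
    rw [mul_sub, h3]
    field_simp
    ring
  have h8 : (2 : ℝ) ^ k * |(((Us K a b n m).filter
      (fun f => ∀ i, lio (a i * f + b i) = σ i)).card : ℝ) - W / 2 ^ k| ≤ 2 ^ k * (ε * W) := by
    have h9 : (2 : ℝ) ^ k * |(((Us K a b n m).filter
        (fun f => ∀ i, lio (a i * f + b i) = σ i)).card : ℝ) - W / 2 ^ k| =
        |(2 : ℝ) ^ k * ((((Us K a b n m).filter
          (fun f => ∀ i, lio (a i * f + b i) = σ i)).card : ℝ) - W / 2 ^ k)| := by
      rw [abs_mul, abs_of_nonneg (by positivity : (0 : ℝ) ≤ 2 ^ k)]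
    rw [h9, h7]
    refine (abs_add_le _ _).trans ?_
    linarith
  exact le_of_mul_le_mul_left h8 (by positivity)

end Pool.Agent.H985.US
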