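import Mathlib
import Pool.Agent.H985.US.Fin

/-!
# Almost prime values of linear forms over `F_q[X]`, `q` even, uniformly in the slopes (helper985)
-/

set_option autoImplicit false

namespace Pool.Agent.H985.US

open Polynomial Finset
open scoped Classical
open Pool.Agent.H524.Cw (lio lio_mob)
open Pool.Agent.H985.Chow (mob)
open Pool.Agent.H985.CG (form_ne form_deg form_lc nrm_unit)
open Pool.Agent.H985.Par (Sft Sft_irr factors_le)
open Pool.Agent.H694.Typ (Mn Irn mem_Mn mem_Irn card_Mn PU mem_PU)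
open UniqueFactorizationMonoid (factors)

/-- exponentials beat powers -/
theorem pow_lim (k : ℕ) (D c β : ℝ) (hc : 0 < c) (hβ : 0 < β) (hD : 0 ≤ D) :
    ∃ n₃ : ℕ, ∀ n : ℕ, n₃ ≤ n → D * (n : ℝ) ^ k ≤ c * 2 ^ (β * (n : ℝ)) := by
  have h1 : Filter.Tendsto (fun n : ℕ => ((n : ℝ) ^ k) / Real.exp (β * Real.log 2 * n))
      Filter.atTop (nhds 0) := by
    have h2 := Real.tendsto_pow_mul_exp_neg_atTop_nhds_zero k
    have hb : 0 < β * Real.log 2 := mul_pos hβ (Real.log_pos (by norm_num))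
    have h3 := (h2.comp (Filter.Tendsto.const_mul_atTop hb tendsto_natCast_atTop_atTop)).const_mul
      (1 / (β * Real.log 2) ^ k)
    rw [mul_zero] at h3
    refine h3.congr fun n => ?_
    simp only [Function.comp_apply]
    rw [mul_pow, Real.exp_neg]
    have hb' := hb.ne'
    field_simp
    ring
  have h4 : ∀ᶠ n : ℕ in Filter.atTop,
      ((n : ℝ) ^ k) / Real.exp (β * Real.log 2 * n) < c / (D + 1) :=
    h1.eventually_lt_const (by positivity)
  obtain ⟨n₃, hn₃⟩ := Filter.eventually_atTop.1 h4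
  refine ⟨n₃, fun n hn => ?_⟩
  have h5 := hn₃ n hn
  rw [div_lt_iff₀ (Real.exp_pos _)] at h5
  have h6 : Real.exp (β * Real.log 2 * n) = 2 ^ (β * (n : ℝ)) := by
    rw [Real.rpow_def_of_pos (by norm_num)]
    congr 1
    ring
  rw [h6] at h5
  have h7 : (0 : ℝ) ≤ 2 ^ (β * (n : ℝ)) := by positivity
  have h8 : D * (n : ℝ) ^ k ≤ D * (c / (D + 1) * 2 ^ (β * (n : ℝ))) :=
    mul_le_mul_of_nonneg_left h5.le hD
  refine h8.trans ?_
  have h9 : D * (c / (D + 1)) ≤ c := by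
    have : D * (c / (D + 1)) = c * (D / (D + 1)) := by ring
    rw [this]
    have h10 : D / (D + 1) ≤ 1 := by
      rw [div_le_one (by positivity)]
      linarith
    nlinarith
  nlinarith

/-- **Almost prime values with all patterns of parities, uniformly in the slopes.** -/
theorem us_few (hus : S_uss) (hv : S_usv) (K : Type) [Field K] [Fintype K] [CharP K 2] (k : ℕ) :
    ∃ (r A : ℕ) (c : ℝ), 0 < c ∧ 1 ≤ A ∧ ∀ (d n : ℕ) (a b : Fin k → K[X]), A * (d + 1) ≤ n →
      (∀ i, a i ≠ 0 ∧ (a i).natDegree ≤ d ∧ (b i).natDegree < n + (a i).natDegree) →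
      (∀ i j, i ≠ j → a i * b j ≠ a j * b i) → Adm a b →
      ∀ σ : Fin k → ℤ, (∀ i, σ i = 1 ∨ σ i = -1) →
        c * (Fintype.card K : ℝ) ^ n / (n : ℝ) ^ k ≤
          (((Mn K n).filter (fun f => ∀ i, (Squarefree (a i * f + b i) ∧
            Multiset.card (factors (a i * f + b i)) ≤ r ∧
              ∀ P : K[X], Irreducible P → P ∣ a i * f + b i → n ≤ (r + 1) * P.natDegree) ∧
                mob (a i * f + b i) = σ i)).card : ℝ) := by
  obtain ⟨κ₀, hκ₀, n₁, hpat⟩ := us_patt hus hv K k (1 / (4 * 2 ^ k)) (by positivity)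
  obtain ⟨c, hc, hvl⟩ := hv K k
  obtain ⟨κ, hκ⟩ : ∃ κ : ℝ, κ = min κ₀ 1 := ⟨_, rfl⟩
  have hκ0 : 0 < κ := by rw [hκ]; exact lt_min hκ₀ one_pos
  have hκ1 : κ ≤ κ₀ := by rw [hκ]; exact min_le_left _ _
  have hκ3 : κ ≤ 1 := by rw [hκ]; exact min_le_right _ _
  obtain ⟨r, hr⟩ := exists_nat_ge (2 / κ)
  have hq : (2 : ℝ) ≤ (Fintype.card K : ℝ) := by
    exact_mod_cast Fintype.one_lt_card (α := K)
  obtain ⟨n₃, hn₃⟩ := pow_lim k (2 * k) (c / (2 * 2 ^ k)) (κ / 2) (by positivity) (by positivity)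
    (by positivity)
  obtain ⟨A₀, hA₀⟩ := exists_nat_ge (2 / κ)
  refine ⟨r, max (max A₀ n₁) (max (max n₃ 1) (⌈(2 : ℝ) / κ⌉₊ + 1)), c / (4 * 2 ^ k), by positivity,
    le_trans (le_trans (le_max_right _ _) (le_max_left _ _)) (le_max_right _ _), ?_⟩
  intro d n a b hA hab hne hadm σ hσ
  set A := max (max A₀ n₁) (max (max n₃ 1) (⌈(2 : ℝ) / κ⌉₊ + 1)) with hAdef
  have hAn : A ≤ n := le_trans (Nat.le_mul_of_pos_right _ (Nat.succ_pos d)) hA
  have hnn₁ : n₁ ≤ n := le_trans (le_trans (le_max_right _ _) (le_max_left _ _)) hAn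
  have hnn₃ : n₃ ≤ n := le_trans (le_trans (le_trans (le_max_left _ _) (le_max_left _ _))
    (le_max_right _ _)) hAn
  have hn1 : 1 ≤ n := le_trans (le_trans (le_trans (le_max_right _ _) (le_max_left _ _))
    (le_max_right _ _)) hAn
  have hnn₄ : ⌈(2 : ℝ) / κ⌉₊ + 1 ≤ n :=
    le_trans (le_trans (le_max_right _ _) (le_max_right _ _)) hAn
  have hA₀n : A₀ * (d + 1) ≤ n := le_trans (Nat.mul_le_mul_right _
    (le_trans (le_max_left _ _) (le_max_left _ _))) hA
  have hnpos : (0 : ℝ) < n := by exact_mod_cast hn1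
  -- the degrees of the slopes
  have hdκ : (d : ℝ) ≤ κ / 2 * n := by
    have h1 : (A₀ : ℝ) * (d + 1) ≤ n := by exact_mod_cast hA₀n
    have h2 : 2 / κ * ((d : ℝ) + 1) ≤ n := (mul_le_mul_of_nonneg_right hA₀ (by positivity)).trans h1
    rw [div_mul_eq_mul_div, div_le_iff₀ hκ0] at h2
    nlinarith
  have hn2 : (2 : ℝ) ≤ κ * n := by
    have h1 : (2 : ℝ) / κ ≤ n := (Nat.le_ceil _).trans
      (by exact_mod_cast (by omega : ⌈(2 : ℝ) / κ⌉₊ ≤ n))
    rw [div_le_iff₀ hκ0] at h1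
    linarith
  obtain ⟨m, hm⟩ : ∃ m : ℕ, m = ⌊κ * n⌋₊ := ⟨_, rfl⟩
  have hm1 : (m : ℝ) ≤ κ * n := by rw [hm]; exact Nat.floor_le (by positivity)
  have hm2 : κ * n < (m : ℝ) + 1 := by rw [hm]; exact Nat.lt_floor_add_one _
  have hm3 : 1 ≤ m := by
    have : (1 : ℝ) < (m : ℝ) + 1 := by linarith
    have h : 1 < m + 1 := by exact_mod_cast this
    omega
  have hmn : (m : ℝ) ≤ n := hm1.trans (by nlinarith)
  have hmpos : (0 : ℝ) < m := by exact_mod_cast hm3
  have hok : Ok κ₀ n a b := ⟨fun i => ⟨(hab i).1, by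
    have h1 : ((a i).natDegree : ℝ) ≤ d := by exact_mod_cast (hab i).2.1
    nlinarith, (hab i).2.2⟩, hne⟩
  obtain ⟨hV, -, hp⟩ := hpat n hnn₁ m a b hm3 (hm1.trans (by nlinarith)) hok hadm
  have e3 := hp σ hσ
  have e2 := hvl m a b hm3 hadm
  have e4 := bad_us n m a b (fun i => (hab i).1) (fun i => (hab i).2.2)
  set q : ℝ := (Fintype.card K : ℝ) with hqdef
  set V : ℝ := Vu a b m with hVdef
  have hVlow : c / (n : ℝ) ^ k ≤ V := by
    refine le_trans ?_ e2
    exact div_le_div_of_nonneg_left hc.le (by positivity) (pow_le_pow_left₀ hmpos.le hmn k)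
  -- the bad ones
  have e6 : (∑ i, q ^ (a i).natDegree) * (q ^ n * (2 / q ^ (m + 1))) ≤ V * q ^ n / (2 * 2 ^ k) := by
    have h1 : ∑ i, q ^ (a i).natDegree ≤ k * q ^ d := by
      have h2 : ∀ i ∈ (Finset.univ : Finset (Fin k)), q ^ (a i).natDegree ≤ q ^ d := fun i _ =>
        pow_le_pow_right₀ (by linarith) (hab i).2.1
      refine (Finset.sum_le_sum h2).trans (le_of_eq ?_)
      rw [Finset.sum_const, Finset.card_univ, Fintype.card_fin, nsmul_eq_mul]
    have h2 : (2 : ℝ) ^ (κ / 2 * (n : ℝ)) * q ^ d ≤ q ^ (m + 1) := by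
      have h3 : q ^ d ≤ q ^ (κ / 2 * (n : ℝ)) := by
        rw [← Real.rpow_natCast q d]
        exact Real.rpow_le_rpow_of_exponent_le (by linarith) hdκ
      have h4 : (2 : ℝ) ^ (κ / 2 * (n : ℝ)) ≤ q ^ (κ / 2 * (n : ℝ)) :=
        Real.rpow_le_rpow (by norm_num) hq (by positivity)
      calc (2 : ℝ) ^ (κ / 2 * (n : ℝ)) * q ^ d ≤ q ^ (κ / 2 * (n : ℝ)) * q ^ (κ / 2 * (n : ℝ)) :=
            mul_le_mul h4 h3 (by positivity) (by positivity)
        _ = q ^ (κ * (n : ℝ)) := by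
            rw [← Real.rpow_add (by linarith)]
            congr 1
            ring
        _ ≤ q ^ ((m + 1 : ℕ) : ℝ) := by
            apply Real.rpow_le_rpow_of_exponent_le (by linarith)
            push_cast
            linarith
        _ = q ^ (m + 1) := Real.rpow_natCast _ _
    have h3 := hn₃ n hnn₃
    have h4 : k * q ^ d * (q ^ n * (2 / q ^ (m + 1))) ≤ V * q ^ n / (2 * 2 ^ k) := by
      have h5 : 2 * (k : ℝ) * q ^ d * (n : ℝ) ^ k ≤ c / (2 * 2 ^ k) * q ^ (m + 1) := by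
        calc 2 * (k : ℝ) * q ^ d * (n : ℝ) ^ k = (2 * k * (n : ℝ) ^ k) * q ^ d := by ring
          _ ≤ (c / (2 * 2 ^ k) * 2 ^ (κ / 2 * (n : ℝ))) * q ^ d :=
              mul_le_mul_of_nonneg_right h3 (by positivity)
          _ = c / (2 * 2 ^ k) * (2 ^ (κ / 2 * (n : ℝ)) * q ^ d) := by ring
          _ ≤ _ := mul_le_mul_of_nonneg_left h2 (by positivity)
      have h6 : k * q ^ d * (q ^ n * (2 / q ^ (m + 1))) =
          (2 * k * q ^ d * (n : ℝ) ^ k) * (q ^ n / ((n : ℝ) ^ k * q ^ (m + 1))) := by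
        field_simp
      rw [h6]
      have h7 : (2 * k * q ^ d * (n : ℝ) ^ k) * (q ^ n / ((n : ℝ) ^ k * q ^ (m + 1))) ≤
          (c / (2 * 2 ^ k) * q ^ (m + 1)) * (q ^ n / ((n : ℝ) ^ k * q ^ (m + 1))) :=
        mul_le_mul_of_nonneg_right h5 (by positivity)
      refine h7.trans ?_
      have h8 : (c / (2 * 2 ^ k) * q ^ (m + 1)) * (q ^ n / ((n : ℝ) ^ k * q ^ (m + 1))) =
          (c / (n : ℝ) ^ k) * q ^ n / (2 * 2 ^ k) := by
        field_simp
      rw [h8]
      have h9 : (c / (n : ℝ) ^ k) * q ^ n ≤ V * q ^ n :=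
        mul_le_mul_of_nonneg_right hVlow (by positivity)
      exact div_le_div_of_nonneg_right h9 (by positivity)
    exact (mul_le_mul_of_nonneg_right h1 (by positivity)).trans h4
  -- the good ones
  set G := (Us K a b n m).filter (fun f => ∀ i, lio (a i * f + b i) = σ i) with hG
  set B := (Us K a b n m).filter (fun f => ∃ i, ¬ Squarefree (a i * f + b i)) with hB
  have e7 : V * q ^ n * (3 / (4 * 2 ^ k)) ≤ (G.card : ℝ) := by
    rw [abs_le] at e3
    have h1 : V * q ^ n * (3 / (4 * 2 ^ k)) = V * q ^ n / 2 ^ k - 1 / (4 * 2 ^ k) * (V * q ^ n) := by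
      field_simp
      ring
    rw [h1]
    linarith [e3.1]
  have e8 : (G.card : ℝ) ≤ ((G \ B).card : ℝ) + (B.card : ℝ) := by
    have h1 := Finset.card_le_card_sdiff_add_card (s := G) (t := B)
    exact_mod_cast h1
  have e9 : c / (4 * 2 ^ k) * q ^ n / (n : ℝ) ^ k ≤ ((G \ B).card : ℝ) := by
    have h1 : V * q ^ n * (3 / (4 * 2 ^ k)) - V * q ^ n / (2 * 2 ^ k) =
        V * q ^ n / (4 * 2 ^ k) := by
      field_simp
      ring
    have h2 : c / (4 * 2 ^ k) * q ^ n / (n : ℝ) ^ k = (c / (n : ℝ) ^ k) * q ^ n / (4 * 2 ^ k) := by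
      field_simp
    rw [h2]
    have h3 : (c / (n : ℝ) ^ k) * q ^ n / (4 * 2 ^ k) ≤ V * q ^ n / (4 * 2 ^ k) :=
      div_le_div_of_nonneg_right (mul_le_mul_of_nonneg_right hVlow (by positivity)) (by positivity)
    have h4 := e4.trans e6
    linarith
  refine e9.trans ?_
  norm_cast
  refine Finset.card_le_card fun f hf => ?_
  rw [mem_sdiff, hG, hB, mem_filter, mem_filter, mem_Us] at hf
  obtain ⟨⟨⟨⟨hf0, hf0'⟩, hf2⟩, hf4⟩, hf5⟩ := hf
  rw [mem_filter, mem_Mn]
  have hsq : ∀ i, Squarefree (a i * f + b i) := by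
    intro i
    by_contra hcon
    exact hf5 ⟨⟨⟨hf0, hf0'⟩, hf2⟩, i, hcon⟩
  refine ⟨⟨hf0, hf0'⟩, fun i => ⟨⟨hsq i, ?_, ?_⟩, ?_⟩⟩
  · have hne' := form_ne (hab i).1 (hab i).2.2 hf0 hf0'
    have hdg : (a i * f + b i).natDegree ≤ 2 * n := by
      rw [form_deg (hab i).1 (hab i).2.2 hf0 hf0']
      have h1 := (hab i).2.1
      have h2 : d + 1 ≤ n := le_trans (Nat.le_mul_of_pos_left _
        (lt_of_lt_of_le one_pos (le_trans (le_trans (le_max_right n₃ 1) (le_max_left _ _))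
          (le_max_right _ _)))) hA
      omega
    have h8 := factors_le hne' hdg (hf2 i)
    have h9 : (Multiset.card (factors (a i * f + b i)) : ℝ) * (κ * n) ≤ 2 * n := by
      have h10 : ((Multiset.card (factors (a i * f + b i)) : ℝ)) * ((m : ℝ) + 1) ≤ 2 * n := by
        exact_mod_cast h8
      refine le_trans ?_ h10
      exact mul_le_mul_of_nonneg_left hm2.le (by positivity)
    have h11 : (Multiset.card (factors (a i * f + b i)) : ℝ) * κ ≤ 2 := by
      have h12 : ((Multiset.card (factors (a i * f + b i)) : ℝ) * κ) * n ≤ 2 * n := by linarith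
      exact le_of_mul_le_mul_right h12 hnpos
    have h13 : (Multiset.card (factors (a i * f + b i)) : ℝ) ≤ r := by
      refine le_trans ?_ hr
      rw [le_div_iff₀ hκ0]
      exact h11
    exact_mod_cast h13
  · intro P hP hPd
    have h8 := Sft_irr (hf2 i) hP hPd
    have h9 : (n : ℝ) ≤ ((r : ℝ) + 1) * P.natDegree := by
      have h10 : ((m : ℝ) + 1) ≤ P.natDegree := by exact_mod_cast h8
      have h11 : (n : ℝ) ≤ r * (κ * n) := by
        have : 1 ≤ r * κ := by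
          rw [div_le_iff₀ hκ0] at hr
          linarith
        nlinarith
      have h12 : r * (κ * n) ≤ (r : ℝ) * P.natDegree :=
        mul_le_mul_of_nonneg_left (by linarith) (by positivity)
      have h13 : (0 : ℝ) ≤ P.natDegree := by positivity
      linarith
    exact_mod_cast h9
  · rw [← lio_mob (hsq i)]
    exact hf4 i

end Pool.Agent.H985.US
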