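import Pool.Agent.H985.US.Stm
import Pool.Agent.H225.Par.Par

/-!
# Sifted set of linear forms and parity patterns, uniformly in the slopes (task US-S, helper864)
-/

set_option autoImplicit false
set_option linter.all false

namespace Pool.Agent.H985.US

open Polynomial Finset
open scoped Classical
open Pool.Agent.H524.Cw (lio abs_lio)
open Pool.Agent.H985.Par (Sft S_sw)
open Pool.Agent.H694.Typ (Mn mem_Mn PU mem_PU)
open Pool.Agent.H985.Chow.Asm (instFD card_deg window_finsum)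
open Pool.Agent.H225.Par (finsum_filter ncard_filter sum_Mn' asym)
open Pool.Agent.H140.PS (powF)

namespace Ss

variable {K : Type} [Field K] [Fintype K]

/-- The forbidden residue classes. -/
noncomputable def omF {k : ℕ} (a b : Fin k → K[X]) (P : K[X]) : Finset K[X] :=
  ((Finset.univ : Finset (degreeLT K P.natDegree)).image
    (fun u : degreeLT K P.natDegree => (u : K[X]))).filter (fun r => ∃ i, P ∣ a i * r + b i)

lemma mem_omF {k : ℕ} (a b : Fin k → K[X]) {P : K[X]} (hP : P ≠ 0) (r : K[X]) :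
    r ∈ omF a b P ↔ r.degree < P.degree ∧ ∃ i, P ∣ a i * r + b i := by
  unfold omF
  rw [Finset.mem_filter, Finset.mem_image]
  constructor
  · rintro ⟨⟨u, -, rfl⟩, h⟩
    refine ⟨?_, h⟩
    rw [degree_eq_natDegree hP]
    exact mem_degreeLT.mp u.2
  · rintro ⟨h1, h2⟩
    refine ⟨⟨⟨r, ?_⟩, Finset.mem_univ _, rfl⟩, h2⟩
    rw [mem_degreeLT, ← degree_eq_natDegree hP]
    exact h1

lemma om_eq {k : ℕ} (a b : Fin k → K[X]) {P : K[X]} (hP : P ≠ 0) :
    om a b P = (omF a b P).card := by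
  unfold om
  rw [← Set.ncard_coe_finset]
  congr 1
  ext r
  rw [Finset.mem_coe, mem_omF a b hP]
  rfl

lemma omF_card_le {k : ℕ} (a b : Fin k → K[X]) {P : K[X]} (hP : P.Monic) (hi : Irreducible P)
    (h : ∃ x : K[X], ∀ i, ¬ P ∣ a i * x + b i) : (omF a b P).card ≤ k := by
  obtain ⟨x, hx⟩ := h
  have hch : ∀ r : {r // r ∈ omF a b P}, ∃ i, P ∣ a i * (r : K[X]) + b i :=
    fun r => ((mem_omF a b hP.ne_zero _).1 r.2).2
  choose g hg using hch
  have hinj : Function.Injective g := by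
    intro r r' hrr
    have h1 := hg r
    have h2 := hg r'
    rw [← hrr] at h2
    have h3 : P ∣ a (g r) * ((r : K[X]) - r') := by
      have h4 : a (g r) * ((r : K[X]) - r') =
          (a (g r) * (r : K[X]) + b (g r)) - (a (g r) * (r' : K[X]) + b (g r)) := by ring
      rw [h4]
      exact dvd_sub h1 h2
    rcases hi.prime.dvd_or_dvd h3 with h4 | h4
    · exfalso
      apply hx (g r)
      have h5 : a (g r) * x + b (g r) =
          (a (g r) * (r : K[X]) + b (g r)) + a (g r) * (x - r) := by ring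
      rw [h5]
      exact dvd_add h1 (Dvd.dvd.mul_right h4 _)
    · have h5 : ((r : K[X]) - r').degree < P.degree :=
        (degree_sub_le _ _).trans_lt (max_lt ((mem_omF a b hP.ne_zero _).1 r.2).1
          ((mem_omF a b hP.ne_zero _).1 r'.2).1)
      exact Subtype.ext (sub_eq_zero.1 (eq_zero_of_dvd_of_degree_lt h4 h5))
  have h1 := Fintype.card_le_of_injective g hinj
  rw [Fintype.card_coe, Fintype.card_fin] at h1
  exact h1

lemma omF_card_lt {k : ℕ} (a b : Fin k → K[X]) {P : K[X]} (hP : P.Monic)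
    (h : ∃ x : K[X], ∀ i, ¬ P ∣ a i * x + b i) :
    (omF a b P).card < Fintype.card K ^ P.natDegree := by
  obtain ⟨x, hx⟩ := h
  rw [← card_deg (K := K) P.natDegree, ← Finset.card_univ,
    ← Finset.card_image_of_injective (Finset.univ : Finset (degreeLT K P.natDegree))
      (f := fun u : degreeLT K P.natDegree => (u : K[X])) Subtype.coe_injective]
  apply Finset.card_lt_card
  unfold omF
  rw [Finset.ssubset_iff_of_subset (Finset.filter_subset _ _)]
  refine ⟨x %ₘ P, ?_, ?_⟩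
  · rw [Finset.mem_image]
    refine ⟨⟨x %ₘ P, ?_⟩, Finset.mem_univ _, rfl⟩
    rw [mem_degreeLT, ← degree_eq_natDegree hP.ne_zero]
    exact degree_modByMonic_lt _ hP
  · intro h1
    obtain ⟨i, hi⟩ := ((mem_omF a b hP.ne_zero _).1 h1).2
    apply hx i
    have h2 : a i * x + b i = (a i * (x %ₘ P) + b i) + P * (a i * (x /ₘ P)) := by
      have h3 := modByMonic_add_div x P
      linear_combination (-(a i)) * h3
    rw [h2]
    exact dvd_add hi (dvd_mul_right _ _)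

lemma sft_iff {k : ℕ} (a b : Fin k → K[X]) (m : ℕ) (f : K[X]) :
    (∀ P ∈ PU K m, ∀ r ∈ omF a b P, ¬ P ∣ f - r) ↔ ∀ i, Sft m (a i * f + b i) := by
  constructor
  · intro h i P hP hi hd
    by_contra hm
    have hPU : P ∈ PU K m := mem_PU.2 ⟨hP, hi, by omega⟩
    have h3 := modByMonic_add_div f P
    refine h P hPU (f %ₘ P) ?_ ?_
    · rw [mem_omF a b hP.ne_zero]
      refine ⟨degree_modByMonic_lt _ hP, i, ?_⟩
      have h4 : a i * (f %ₘ P) + b i = (a i * f + b i) - P * (a i * (f /ₘ P)) := by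
        linear_combination (a i) * h3
      rw [h4]
      exact dvd_sub hd (dvd_mul_right _ _)
    · have h4 : f - f %ₘ P = P * (f /ₘ P) := by linear_combination -h3
      rw [h4]
      exact dvd_mul_right _ _
  · intro h P hP r hr hd
    have hP' := mem_PU.1 hP
    obtain ⟨_, i, hi⟩ := (mem_omF a b hP'.1.ne_zero r).1 hr
    have h1 : P ∣ a i * f + b i := by
      have h2 : a i * f + b i = (a i * r + b i) + a i * (f - r) := by ring
      rw [h2]
      exact dvd_add hi (Dvd.dvd.mul_left hd _)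
    have := h i P hP'.1 hP'.2.1 h1
    omega

/-- The sifted set of the window. -/
def Sif {k : ℕ} (a b : Fin k → K[X]) (n m : ℕ) : Set K[X] :=
  {u : K[X] | u.degree < (n : WithBot ℕ) ∧
    ∀ P ∈ PU K m, ∀ r ∈ omF a b P, ¬ P ∣ X ^ n + 1 * u - r}

lemma sum_Us {k : ℕ} (a b : Fin k → K[X]) (n m : ℕ) (F : K[X] → ℝ) :
    ∑ f ∈ Us K a b n m, F f = ∑ᶠ u ∈ Sif a b n m, F (X ^ n + 1 * u) := by
  unfold Sif
  rw [finsum_filter n (fun u => ∀ P ∈ PU K m, ∀ r ∈ omF a b P, ¬ P ∣ X ^ n + 1 * u - r)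
    (fun u => F (X ^ n + 1 * u))]
  unfold Us
  rw [Finset.sum_filter, sum_Mn']
  refine Finset.sum_congr rfl fun u _ => ?_
  by_cases h : ∀ i, Sft m (a i * (X ^ n + 1 * (u : K[X])) + b i)
  · rw [if_pos h, if_pos ((sft_iff a b m _).2 h)]
  · rw [if_neg h, if_neg (fun h2 => h ((sft_iff a b m _).1 h2))]

lemma card_Us {k : ℕ} (a b : Fin k → K[X]) (n m : ℕ) :
    ((Us K a b n m).card : ℝ) = ((Sif a b n m).ncard : ℝ) := by
  unfold Sif
  rw [ncard_filter n (fun u => ∀ P ∈ PU K m, ∀ r ∈ omF a b P, ¬ P ∣ X ^ n + 1 * u - r)]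
  unfold Us
  rw [← Finset.sum_boole, sum_Mn']
  refine Finset.sum_congr rfl fun u _ => ?_
  by_cases h : ∀ i, Sft m (a i * (X ^ n + 1 * (u : K[X])) + b i)
  · rw [if_pos h, if_pos ((sft_iff a b m _).2 h)]
  · rw [if_neg h, if_neg (fun h2 => h ((sft_iff a b m _).1 h2))]

lemma Vu_eq {k : ℕ} (a b : Fin k → K[X]) (m : ℕ) :
    Vu a b m = ∏ P ∈ PU K m, (1 - ((omF a b P).card : ℝ) / (Fintype.card K : ℝ) ^ P.natDegree) := by
  unfold Vu
  refine Finset.prod_congr rfl fun P hP => ?_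
  rw [om_eq a b (mem_PU.1 hP).1.ne_zero]

lemma degree_mul_lt {n L' : ℕ} {D v : K[X]} (hD : D.Monic) (hL : D.natDegree + L' = n) :
    (D * v).degree < (n : WithBot ℕ) ↔ v.degree < (L' : WithBot ℕ) := by
  by_cases hv : v = 0
  · subst hv
    rw [mul_zero, degree_zero]
    exact ⟨fun _ => WithBot.bot_lt_coe _, fun _ => WithBot.bot_lt_coe _⟩
  · rw [degree_eq_natDegree (mul_ne_zero hD.ne_zero hv), degree_eq_natDegree hv,
      natDegree_mul hD.ne_zero hv, Nat.cast_lt, Nat.cast_lt]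
    omega

lemma mem_Mn_iff {n : ℕ} {f : K[X]} : f ∈ Mn K n ↔ (f - X ^ n).degree < (n : WithBot ℕ) := by
  rw [mem_Mn]
  constructor
  · rintro ⟨h1, h2⟩
    have h3 : f.degree = (X ^ n : K[X]).degree := by
      rw [degree_X_pow, degree_eq_natDegree h1.ne_zero, h2]
    have h4 := degree_sub_lt h3 h1.ne_zero (by
      rw [h1.leadingCoeff, (monic_X_pow n).leadingCoeff])
    rwa [degree_eq_natDegree h1.ne_zero, h2] at h4
  · intro h
    have h1 : f = X ^ n + (f - X ^ n) := by ring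
    have h2 : (X ^ n + (f - X ^ n)).Monic := monic_X_pow_add h
    have h3 := degree_add_eq_left_of_degree_lt (p := (X ^ n : K[X])) (q := f - X ^ n)
      (by rw [degree_X_pow]; exact h)
    rw [← h1] at h2 h3
    refine ⟨h2, ?_⟩
    rw [natDegree_eq_of_degree_eq h3, natDegree_X_pow]

lemma window {n L' : ℕ} {D r : K[X]} (hD : D.Monic) (hL : D.natDegree + L' = n)
    (hr : r.degree < D.degree) (F : K[X] → ℝ) :
    ∑ᶠ v ∈ {v : K[X] | v.degree < (L' : WithBot ℕ)}, F (X ^ n + 1 * (r + D * v)) =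
      ∑ f ∈ (Mn K n).filter (fun f => D ∣ f - (X ^ n + r)), F f := by
  rw [window_finsum L' (fun v => F (X ^ n + 1 * (r + D * v)))]
  have hrn : r.degree < (n : WithBot ℕ) := by
    refine hr.trans_le ?_
    rw [degree_eq_natDegree hD.ne_zero, Nat.cast_le]
    omega
  refine Finset.sum_bij (fun v _ => X ^ n + 1 * (r + D * (v : K[X]))) ?_ ?_ ?_ ?_
  · intro v _
    rw [Finset.mem_filter, mem_Mn_iff]
    refine ⟨?_, ?_⟩
    · have h1 : X ^ n + 1 * (r + D * (v : K[X])) - X ^ n = r + D * (v : K[X]) := by ring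
      rw [h1]
      refine (degree_add_le _ _).trans_lt (max_lt hrn ?_)
      rw [degree_mul_lt hD hL]
      exact mem_degreeLT.mp v.2
    · have h1 : X ^ n + 1 * (r + D * (v : K[X])) - (X ^ n + r) = D * (v : K[X]) := by ring
      rw [h1]
      exact dvd_mul_right _ _
  · intro v _ v' _ hvv
    have h1 : X ^ n + 1 * (r + D * (v : K[X])) = X ^ n + 1 * (r + D * (v' : K[X])) := hvv
    rw [one_mul, one_mul] at h1
    have h2 := add_left_cancel (add_left_cancel h1)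
    exact Subtype.ext (mul_left_cancel₀ hD.ne_zero h2)
  · intro f hf
    rw [Finset.mem_filter, mem_Mn_iff] at hf
    obtain ⟨h1, v, hv⟩ := hf
    have h2 : v.degree < (L' : WithBot ℕ) := by
      rw [← degree_mul_lt hD hL, ← hv]
      have h3 : f - (X ^ n + r) = (f - X ^ n) - r := by ring
      rw [h3]
      exact (degree_sub_le _ _).trans_lt (max_lt h1 hrn)
    refine ⟨⟨v, mem_degreeLT.mpr h2⟩, Finset.mem_univ _, ?_⟩
    show X ^ n + 1 * (r + D * v) = f
    rw [← hv]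
    ring
  · intro v _
    rfl

/-- Products of values of the Liouville function. -/
lemma abs_prod_lio {k : ℕ} (S : Finset (Fin k)) (f : Fin k → K[X]) :
    |∏ i ∈ S, (lio (f i) : ℝ)| ≤ 1 := by
  rw [Finset.abs_prod]
  exact Finset.prod_le_one (fun _ _ => abs_nonneg _) fun i _ => abs_lio _

/-- The power saving for a subfamily. -/
lemma powS [CharP K 2] {k : ℕ} (S : Finset (Fin k)) (hS : S.Nonempty) :
    ∃ c : ℝ, 0 < c ∧ ∃ n₀ : ℕ, ∀ n : ℕ, n₀ ≤ n → ∀ (a b : Fin k → K[X]) (Q r : K[X]),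
      (∀ i, a i ≠ 0 ∧ ((a i).natDegree : ℝ) ≤ c * n ∧ (b i).natDegree < n + (a i).natDegree) →
      (∀ i j, i ≠ j → a i * b j ≠ a j * b i) → Q.Monic → (Q.natDegree : ℝ) ≤ c * n →
      |∑ f ∈ (Mn K n).filter (fun f => Q ∣ f - r), ∏ i ∈ S, (lio (a i * f + b i) : ℝ)| ≤
        (Fintype.card K : ℝ) ^ ((n : ℝ) - c * n) := by
  obtain ⟨c, hc, n₀, hn₀⟩ := powF K S.card (Finset.card_pos.2 hS)
  refine ⟨c, hc, n₀, fun n hn a b Q r hab hne hQ hQd => ?_⟩
  let e : Fin S.card ≃ S := S.equivFin.symm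
  have h1 := hn₀ n hn (fun i => a (e i)) (fun i => b (e i)) Q r (fun i => hab _)
    (fun i j hij => hne _ _ (fun h => hij (e.injective (Subtype.ext h)))) hQ hQd
  refine le_trans (le_of_eq ?_) h1
  congr 1
  refine Finset.sum_congr rfl fun f _ => ?_
  rw [← Finset.prod_coe_sort S (fun i => (lio (a i * f + b i) : ℝ))]
  exact (Equiv.prod_comp e (fun i : S => (lio (a i * f + b i) : ℝ))).symm

/-- The sieve of the window of the monic polynomials. -/
lemma sieve (K : Type) [Field K] [Fintype K] (k : ℕ) (ε : ℝ) (A : ℕ)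
    (hA : ∀ (L m : ℕ) (Ps : Finset K[X]) (Ω : K[X] → Finset K[X]) (M a₀ : K[X]),
      1 ≤ m → A * m ≤ L →
      (∀ P ∈ Ps, P.Monic ∧ Irreducible P ∧ P.natDegree ≤ m ∧ IsCoprime M P) →
      (∀ P ∈ Ps, (Ω P).card ≤ k ∧ (Ω P).card < Fintype.card K ^ P.natDegree ∧
        ∀ r ∈ Ω P, r.degree < P.degree) →
      let Sif : Set K[X] := {u | u.degree < (L : WithBot ℕ) ∧
        ∀ P ∈ Ps, ∀ r ∈ Ω P, ¬ P ∣ a₀ + M * u - r}
      let V : ℝ := ∏ P ∈ Ps, (1 - ((Ω P).card : ℝ) / (Fintype.card K : ℝ) ^ P.natDegree)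
      (1 - ε) * V * (Fintype.card K : ℝ) ^ L ≤ Sif.ncard ∧
      (Sif.ncard : ℝ) ≤ (1 + ε) * V * (Fintype.card K : ℝ) ^ L ∧
      ∀ (F : K[X] → ℝ) (B : ℝ), (∀ u, |F u| ≤ 1) → 0 ≤ B →
        (∀ (D r : K[X]) (L' : ℕ), D.Monic → D ∣ ∏ P ∈ Ps, P → D.natDegree + L' = L →
          D.natDegree ≤ A * m → r.degree < D.degree →
          |∑ᶠ v ∈ {v : K[X] | v.degree < (L' : WithBot ℕ)}, F (r + D * v)| ≤ B) →
        |∑ᶠ u ∈ Sif, F u| ≤ ε * V * (Fintype.card K : ℝ) ^ L +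
          2 * ((k + 1 : ℝ) * Fintype.card K) ^ (A * m) * B)
    (n m : ℕ) (a b : Fin k → K[X]) (hm : 1 ≤ m) (hAm : A * m ≤ n) (hadm : Adm a b) :
    (1 - ε) * Vu a b m * (Fintype.card K : ℝ) ^ n ≤ (Sif a b n m).ncard ∧
      ((Sif a b n m).ncard : ℝ) ≤ (1 + ε) * Vu a b m * (Fintype.card K : ℝ) ^ n ∧
      ∀ (F : K[X] → ℝ) (B : ℝ), (∀ u, |F u| ≤ 1) → 0 ≤ B →
        (∀ (D r : K[X]) (L' : ℕ), D.Monic → D.natDegree + L' = n →
          D.natDegree ≤ A * m → r.degree < D.degree →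
          |∑ᶠ v ∈ {v : K[X] | v.degree < (L' : WithBot ℕ)}, F (r + D * v)| ≤ B) →
        |∑ᶠ u ∈ Sif a b n m, F u| ≤ ε * Vu a b m * (Fintype.card K : ℝ) ^ n +
          2 * ((k + 1 : ℝ) * Fintype.card K) ^ (A * m) * B := by
  rw [Vu_eq]
  have h := hA n m (PU K m) (omF a b) 1 (X ^ n) hm hAm
    (fun P hP => ⟨(mem_PU.1 hP).1, (mem_PU.1 hP).2.1, (mem_PU.1 hP).2.2, isCoprime_one_left⟩)
    (fun P hP => ⟨omF_card_le a b (mem_PU.1 hP).1 (mem_PU.1 hP).2.1
        (hadm P (mem_PU.1 hP).1 (mem_PU.1 hP).2.1),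
      omF_card_lt a b (mem_PU.1 hP).1 (hadm P (mem_PU.1 hP).1 (mem_PU.1 hP).2.1),
      fun r hr => ((mem_omF a b (mem_PU.1 hP).1.ne_zero r).1 hr).1⟩)
  obtain ⟨h1, h2, h3⟩ := h
  exact ⟨h1, h2, fun F B hF hB hD => h3 F B hF hB (fun D r L' hD1 _ hD3 hD4 hD5 =>
    hD D r L' hD1 hD3 hD4 hD5)⟩

theorem twist (hs : S_sw) (hv : S_usv) (K : Type) [Field K] [Fintype K] [CharP K 2] (k : ℕ)
    (ε : ℝ) (hε : 0 < ε) (S : Finset (Fin k)) (hS : S.Nonempty) :
    ∃ κ : ℝ, 0 < κ ∧ ∃ n₀ : ℕ, ∀ n : ℕ, n₀ ≤ n → ∀ (m : ℕ) (a b : Fin k → K[X]), 1 ≤ m →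
      (m : ℝ) ≤ κ * n → Ok κ n a b → Adm a b →
      |∑ f ∈ Us K a b n m, ∏ i ∈ S, (lio (a i * f + b i) : ℝ)| ≤
          ε * (Vu a b m * (Fintype.card K : ℝ) ^ n) := by
  obtain ⟨A, hA⟩ := hs K k (ε / 2) (half_pos hε)
  obtain ⟨c', hc', hV⟩ := hv K k
  obtain ⟨c, hc, n₁, hp⟩ := powS (K := K) S hS
  obtain ⟨κ₁, hκ₁, n₂, hasym⟩ := asym (Fintype.card K) k A c (ε / 2 * c') Fintype.one_lt_card hc
    (by positivity)
  have hA1 : (0 : ℝ) < A + 1 := by positivity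
  set κ : ℝ := min κ₁ (min (c / (A + 1)) (1 / (A + 1))) with hκdef
  have hκ0 : 0 < κ := lt_min hκ₁ (lt_min (by positivity) (by positivity))
  have hκa : κ ≤ κ₁ := min_le_left _ _
  have hκb : κ ≤ c / (A + 1) := (min_le_right _ _).trans (min_le_left _ _)
  have hκd : κ ≤ 1 / (A + 1) := (min_le_right _ _).trans (min_le_right _ _)
  have hκc : κ ≤ c := by
    refine hκb.trans ?_
    rw [div_le_iff₀ hA1]
    have : (0 : ℝ) ≤ A := Nat.cast_nonneg _
    nlinarith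
  refine ⟨κ, hκ0, max n₁ n₂, ?_⟩
  intro n hn m a b hm hmn hok hadm
  have hn0 : (0 : ℝ) ≤ n := Nat.cast_nonneg _
  have hm0 : (0 : ℝ) < m := by exact_mod_cast hm
  have hAmn : A * m ≤ n := by
    have h1 : (m : ℝ) * (A + 1) ≤ n := by
      have h2 : (m : ℝ) ≤ 1 / (A + 1) * n := hmn.trans (mul_le_mul_of_nonneg_right hκd hn0)
      rw [one_div, inv_mul_eq_div, le_div_iff₀ hA1] at h2
      exact h2
    have h2 : ((A * m : ℕ) : ℝ) ≤ n := by
      push_cast
      nlinarith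
    exact_mod_cast h2
  have hAmc : ((A * m : ℕ) : ℝ) ≤ c * n := by
    have h2 : (m : ℝ) ≤ c / (A + 1) * n := hmn.trans (mul_le_mul_of_nonneg_right hκb hn0)
    rw [div_mul_eq_mul_div, le_div_iff₀ hA1] at h2
    push_cast
    nlinarith
  have hq1 : (1 : ℝ) < (Fintype.card K : ℝ) := by
    exact_mod_cast (Fintype.one_lt_card : 1 < Fintype.card K)
  have hq0 : (0 : ℝ) < (Fintype.card K : ℝ) := by linarith
  obtain ⟨-, -, h3⟩ := sieve K k (ε / 2) A hA n m a b hm hAmn hadm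
  have h4 := h3 (fun u => ∏ i ∈ S, (lio (a i * (X ^ n + 1 * u) + b i) : ℝ))
    ((Fintype.card K : ℝ) ^ ((n : ℝ) - c * n)) (fun u => abs_prod_lio S _)
    (Real.rpow_nonneg hq0.le _) (by
      intro D r L' hD hL hDA hr
      rw [window hD hL hr (fun f => ∏ i ∈ S, (lio (a i * f + b i) : ℝ))]
      refine hp n ((le_max_left _ _).trans hn) a b D (X ^ n + r) (fun i => ⟨(hok.1 i).1,
        (hok.1 i).2.1.trans (mul_le_mul_of_nonneg_right hκc hn0), (hok.1 i).2.2⟩) hok.2 hD ?_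
      refine le_trans ?_ hAmc
      exact_mod_cast hDA)
  have h5 := hasym n ((le_max_right _ _).trans hn) m
    (hmn.trans (mul_le_mul_of_nonneg_right hκa hn0))
  have h6 := hV m a b hm hadm
  have hmk : (0 : ℝ) < (m : ℝ) ^ k := pow_pos hm0 k
  have h7 : (Fintype.card K : ℝ) ^ ((n : ℝ) - c * n) =
      (Fintype.card K : ℝ) ^ (-(c * n)) * (Fintype.card K : ℝ) ^ n := by
    rw [← Real.rpow_natCast, ← Real.rpow_add hq0]
    congr 1
    ring
  have h8 : 2 * ((k + 1 : ℝ) * Fintype.card K) ^ (A * m) * (Fintype.card K : ℝ) ^ (-(c * n)) ≤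
      ε / 2 * Vu a b m := by
    have h9 : 2 * ((k + 1 : ℝ) * Fintype.card K) ^ (A * m) * (Fintype.card K : ℝ) ^ (-(c * n)) ≤
        ε / 2 * c' / (m : ℝ) ^ k := by
      rw [le_div_iff₀ hmk]
      exact h5
    refine h9.trans ?_
    rw [mul_div_assoc]
    exact mul_le_mul_of_nonneg_left h6 (by positivity)
  have h9 : 2 * ((k + 1 : ℝ) * Fintype.card K) ^ (A * m) *
      (Fintype.card K : ℝ) ^ ((n : ℝ) - c * n) ≤ ε / 2 * Vu a b m * (Fintype.card K : ℝ) ^ n := by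
    rw [h7, ← mul_assoc]
    exact mul_le_mul_of_nonneg_right h8 (pow_nonneg hq0.le _)
  rw [sum_Us a b n m (fun f => ∏ i ∈ S, (lio (a i * f + b i) : ℝ))]
  refine h4.trans ?_
  linarith

end Ss

theorem uss (hs : S_sw) (hv : S_usv) : S_uss := by
  intro K _ _ _ k ε hε
  have h := fun S : {S : Finset (Fin k) // S.Nonempty} => Ss.twist hs hv K k ε hε S.1 S.2
  choose κ hκ n₀ htw using h
  obtain ⟨κ', hκ'0, hκ'⟩ : ∃ κ' : ℝ, 0 < κ' ∧ ∀ S, κ' ≤ κ S := by
    rcases isEmpty_or_nonempty {S : Finset (Fin k) // S.Nonempty} with hemp | hne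
    · exact ⟨1, one_pos, fun S => (hemp.false S).elim⟩
    · obtain ⟨S₀, hS₀⟩ := Finite.exists_min κ
      exact ⟨κ S₀, hκ S₀, hS₀⟩
  obtain ⟨A, hA⟩ := hs K k ε hε
  have hA1 : (0 : ℝ) < A + 1 := by positivity
  refine ⟨min κ' (1 / (A + 1)), lt_min hκ'0 (by positivity), ∑ S, n₀ S, ?_⟩
  intro n hn m a b hm hmn hok hadm
  have hn0 : (0 : ℝ) ≤ n := Nat.cast_nonneg _
  refine ⟨?_, ?_⟩
  · have hAmn : A * m ≤ n := by
      have h1 : (m : ℝ) * (A + 1) ≤ n := by
        have h2 : (m : ℝ) ≤ 1 / (A + 1) * n :=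
          hmn.trans (mul_le_mul_of_nonneg_right (min_le_right _ _) hn0)
        rw [one_div, inv_mul_eq_div, le_div_iff₀ hA1] at h2
        exact h2
      have h2 : ((A * m : ℕ) : ℝ) ≤ n := by
        push_cast
        have : (0 : ℝ) ≤ m := Nat.cast_nonneg _
        nlinarith
      exact_mod_cast h2
    obtain ⟨h1, h2, -⟩ := Ss.sieve K k ε A hA n m a b hm hAmn hadm
    rw [Ss.card_Us, abs_le]
    constructor
    · linarith
    · linarith
  · intro S hS
    have h2 : n₀ ⟨S, hS⟩ ≤ ∑ S, n₀ S :=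
      Finset.single_le_sum (f := n₀) (fun _ _ => Nat.zero_le _) (Finset.mem_univ _)
    have hle : min κ' (1 / ((A : ℝ) + 1)) ≤ κ ⟨S, hS⟩ := (min_le_left _ _).trans (hκ' _)
    refine htw ⟨S, hS⟩ n (h2.trans hn) m a b hm
      (hmn.trans (mul_le_mul_of_nonneg_right hle hn0)) ⟨fun i => ⟨(hok.1 i).1,
        (hok.1 i).2.1.trans (mul_le_mul_of_nonneg_right hle hn0), (hok.1 i).2.2⟩, hok.2⟩ hadm

end Pool.Agent.H985.US


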