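import Pool.Agent.H985.US.Stm
import Pool.Agent.H996.Par.Low

/-!
# Lower bound for the singular product, uniformly in the slopes (task US-V, helper599)

Adaptation of `Pool/Agent/H985/CG/Vp.lean`.
-/

set_option autoImplicit false
set_option linter.unusedSectionVars false

namespace Pool.Agent.H985.US

open Polynomial Finset
open scoped Classical
open Pool.Agent.H694.Typ (Mn Irn PU mem_PU pol pol_inj exists_pol pol_degree wt wt_nonneg q_ge)
open Pool.Agent.H996.Par (sum_wt sum_wt_sq one_sub_ge)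

namespace UsvH599

variable {K : Type} [Field K] [Fintype K]

/-- all residues modulo `P` -/
noncomputable def Res (P : K[X]) : Finset K[X] :=
  (univ : Finset (Fin P.natDegree → K)).image (pol : (Fin P.natDegree → K) → K[X])

theorem Res_card (P : K[X]) : (Res P).card = Fintype.card K ^ P.natDegree := by
  unfold Res
  rw [card_image_of_injective _ pol_inj, card_univ, Fintype.card_fun, Fintype.card_fin]

theorem mem_Res {P : K[X]} (hP : P.Monic) {a : K[X]} : a ∈ Res P ↔ a.degree < P.degree := by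
  unfold Res
  rw [mem_image, degree_eq_natDegree hP.ne_zero]
  constructor
  · rintro ⟨c, -, rfl⟩
    exact pol_degree c
  · intro ha
    obtain ⟨c, hc⟩ := exists_pol ha
    exact ⟨c, mem_univ _, hc⟩

/-- the residues modulo `P` which are hit -/
noncomputable def Hit {k : ℕ} (a b : Fin k → K[X]) (P : K[X]) : Finset K[X] :=
  (Res P).filter (fun r => ∃ i, P ∣ a i * r + b i)

theorem om_eq {k : ℕ} (a b : Fin k → K[X]) {P : K[X]} (hP : P.Monic) :
    om a b P = (Hit a b P).card := by
  unfold om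
  have e : {r : K[X] | r.degree < P.degree ∧ ∃ i, P ∣ a i * r + b i} =
      ((Hit a b P : Finset K[X]) : Set K[X]) := by
    ext r
    rw [Finset.mem_coe, Hit, mem_filter, mem_Res hP]
    exact Iff.rfl
  rw [e, Set.ncard_coe_finset]

/-- at most `k` residues are hit -/
theorem hit_card_le_k {k : ℕ} (a b : Fin k → K[X]) {P : K[X]} (hP : P.Monic) (hi : Irreducible P)
    (hr : ∃ x : K[X], ∀ i, ¬ P ∣ a i * x + b i) : (Hit a b P).card ≤ k := by
  obtain ⟨x, hx⟩ := hr
  have h1 : Hit a b P ⊆ (univ : Finset (Fin k)).biUnion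
      (fun i => (Res P).filter (fun r => P ∣ a i * r + b i)) := by
    intro r hr
    unfold Hit at hr
    rw [mem_filter] at hr
    obtain ⟨h2, i, h3⟩ := hr
    rw [mem_biUnion]
    exact ⟨i, mem_univ _, mem_filter.2 ⟨h2, h3⟩⟩
  refine (card_le_card h1).trans (card_biUnion_le.trans ?_)
  have h2 : ∀ i ∈ (univ : Finset (Fin k)),
      ((Res P).filter (fun r => P ∣ a i * r + b i)).card ≤ 1 := by
    intro i _
    rw [card_le_one]
    intro r hr r' hr'
    rw [mem_filter, mem_Res hP] at hr hr'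
    have h3 : P ∣ a i * (r - r') := by
      have h4 := dvd_sub hr.2 hr'.2
      have h5 : a i * r + b i - (a i * r' + b i) = a i * (r - r') := by ring
      rwa [h5] at h4
    rcases hi.prime.dvd_or_dvd h3 with h4 | h4
    · exfalso
      refine hx i ?_
      have h5 : a i * x + b i = (a i * r + b i) + a i * (x - r) := by ring
      rw [h5]
      exact dvd_add hr.2 (h4.mul_right _)
    · have h5 : (r - r').degree < P.degree :=
        (degree_sub_le _ _).trans_lt (max_lt hr.1 hr'.1)
      have h6 : r - r' = 0 := by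
        by_contra h7
        exact absurd (degree_le_of_dvd h4 h7) (not_le.2 h5)
      exact sub_eq_zero.1 h6
  refine (sum_le_sum h2).trans ?_
  rw [sum_const, card_univ, Fintype.card_fin, smul_eq_mul, mul_one]

/-- some residue is not hit -/
theorem hit_card_lt {k : ℕ} (a b : Fin k → K[X]) {P : K[X]} (hP : P.Monic)
    (hr : ∃ x : K[X], ∀ i, ¬ P ∣ a i * x + b i) :
    (Hit a b P).card + 1 ≤ Fintype.card K ^ P.natDegree := by
  obtain ⟨x, hx⟩ := hr
  have hmod : P ∣ x - x %ₘ P := by
    have h3 := modByMonic_add_div x P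
    exact ⟨x /ₘ P, by linear_combination (-1 : K[X]) * h3⟩
  have h2 : x %ₘ P ∈ Res P := by
    rw [mem_Res hP]
    exact degree_modByMonic_lt x hP
  have h4 : x %ₘ P ∉ Hit a b P := by
    intro h5
    unfold Hit at h5
    rw [mem_filter] at h5
    obtain ⟨-, i, h6⟩ := h5
    refine hx i ?_
    have h7 : a i * x + b i = (a i * (x %ₘ P) + b i) + a i * (x - x %ₘ P) := by ring
    rw [h7]
    exact dvd_add h6 (hmod.mul_left _)
  have h5 : Hit a b P ⊂ Res P :=
    (ssubset_iff_of_subset (filter_subset _ _)).2 ⟨_, h2, h4⟩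
  have h6 := card_lt_card h5
  rw [Res_card] at h6
  omega

/-- the lower bound for a factor -/
theorem fc_ge {k : ℕ} (a b : Fin k → K[X]) {P : K[X]} (hP : P.Monic) (hi : Irreducible P)
    (hr : ∃ x : K[X], ∀ i, ¬ P ∣ a i * x + b i) :
    Real.exp (-((k : ℝ) * wt K P.natDegree +
      (8 * (k : ℝ) ^ 3 + 2 * (k : ℝ) ^ 2) * wt K P.natDegree ^ 2)) ≤
      1 - (om a b P : ℝ) / (Fintype.card K : ℝ) ^ P.natDegree := by
  have h1 : ((Hit a b P).card : ℝ) + 1 ≤ (Fintype.card K : ℝ) ^ P.natDegree := by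
    exact_mod_cast hit_card_lt a b hP hr
  rw [om_eq a b hP]
  exact one_sub_ge k _ _ (hit_card_le_k a b hP hi hr) h1

end UsvH599

open UsvH599 in
/-- **Task US-V.** -/
theorem usv : S_usv := by
  intro K _ _ k
  refine ⟨Real.exp (-((k : ℝ) + (8 * (k : ℝ) ^ 3 + 2 * (k : ℝ) ^ 2))), Real.exp_pos _, ?_⟩
  intro m a b hm hadm
  set C : ℝ := 8 * (k : ℝ) ^ 3 + 2 * (k : ℝ) ^ 2 with hC
  have hC0 : 0 ≤ C := by positivity
  have hk0 : (0 : ℝ) ≤ k := Nat.cast_nonneg k
  have hm0 : (0 : ℝ) < m := by exact_mod_cast hm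
  have h1 : ∏ P ∈ PU K m, Real.exp (-((k : ℝ) * wt K P.natDegree + C * wt K P.natDegree ^ 2)) ≤
      Vu a b m := by
    refine prod_le_prod (fun _ _ => (Real.exp_pos _).le) fun P hP => ?_
    have hP' := mem_PU.1 hP
    exact fc_ge a b hP'.1 hP'.2.1 (hadm P hP'.1 hP'.2.1)
  refine le_trans ?_ h1
  rw [← Real.exp_sum]
  have h2 : ∑ P ∈ PU K m, (-((k : ℝ) * wt K P.natDegree + C * wt K P.natDegree ^ 2)) =
      -((k : ℝ) * ∑ P ∈ PU K m, wt K P.natDegree + C * ∑ P ∈ PU K m, wt K P.natDegree ^ 2) := by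
    rw [sum_neg_distrib, sum_add_distrib, ← mul_sum, ← mul_sum]
  rw [h2]
  have h3 : Real.exp (-((k : ℝ) + C)) / (m : ℝ) ^ k =
      Real.exp (-((k : ℝ) * (1 + Real.log m) + C * 1)) := by
    have h4 : (m : ℝ) ^ k = Real.exp (k * Real.log m) := by
      rw [mul_comm, ← Real.rpow_natCast, Real.rpow_def_of_pos hm0]
    rw [h4, ← Real.exp_sub]
    congr 1
    ring
  rw [h3, Real.exp_le_exp]
  apply neg_le_neg
  exact add_le_add (mul_le_mul_of_nonneg_left (sum_wt m) hk0)
    (mul_le_mul_of_nonneg_left (sum_wt_sq m) hC0)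

end Pool.Agent.H985.US
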