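import Mathlib
import Pool.Agent.H985.US.Few
import Pool.Agent.H985.US.V
import Pool.Agent.H985.US.S

/-!
# Sifted values of linear forms over `F_q[X]`, `q` even, uniformly in the slopes (helper985):
assembly
-/

namespace Pool.Agent.H985.US

theorem s_usv : S_usv := usv

theorem s_uss : S_uss := uss Pool.Agent.H985.Par.s_sw usv

end Pool.Agent.H985.US
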