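import Mathlib
import Pool.Agent.H985.US.Base

/-!
# The forms `r_j f + 1` over `F_q[X]`, `q` even, uniformly in the `r_j` (helper985)
-/

set_option autoImplicit false

namespace Pool.Agent.H985.US

open Polynomial Finset
open scoped Classical
open Pool.Agent.H524.Cw (lio)
open Pool.Agent.H985.Par (Sft)
open Pool.Agent.H694.Typ (Mn Irn mem_Mn mem_Irn card_Mn PU mem_PU)

variable {K : Type} [Field K] [Fintype K]

/-- an obstruction has small degree -/
theorem obs_deg {k : ℕ} {r : Fin k → K[X]} {P : K[X]} (hP : P.Monic) (hPi : Irreducible P)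
    (h : ∀ x : K[X], ∃ i, P ∣ r i * x + 1) : P.natDegree ≤ k := by
  -- the residues inject into `Fin k`
  choose i hi using h
  have hinj : Set.InjOn i {x : K[X] | x.degree < P.degree} := by
    intro x hx y hy hxy
    have h1 := hi x
    have h2 := hi y
    rw [← hxy] at h2
    have h3 : P ∣ r (i x) * (x - y) := by
      have h4 := dvd_sub h1 h2
      have h5 : r (i x) * (x - y) = r (i x) * x + 1 - (r (i x) * y + 1) := by ring
      rwa [h5]
    rcases hPi.prime.dvd_or_dvd h3 with h4 | h4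
    · have h5 : P ∣ 1 := by
        have h6 := dvd_sub h1 (h4.mul_right x)
        rwa [add_sub_cancel_left] at h6
      exact absurd (isUnit_of_dvd_one h5) hPi.not_isUnit
    · by_contra hne
      have h5 := degree_le_of_dvd h4 (sub_ne_zero.2 hne)
      have h6 := degree_sub_le x y
      exact absurd (lt_of_le_of_lt h6 (max_lt hx hy)) (not_lt.2 h5)
  have hcard : {x : K[X] | x.degree < P.degree}.ncard = Fintype.card K ^ P.natDegree := by
    rw [degree_eq_natDegree hP.ne_zero]
    exact (Pool.Agent.H985.KP.Cnt.card_degLT P.natDegree).2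
  have h1 : {x : K[X] | x.degree < P.degree}.ncard ≤ k := by
    have h2 := Set.ncard_le_ncard_of_injOn (t := (Set.univ : Set (Fin k))) i
      (fun x _ => Set.mem_univ _) hinj Set.finite_univ
    rwa [Set.ncard_univ, Nat.card_eq_fintype_card, Fintype.card_fin] at h2
  rw [hcard] at h1
  have h3 : 2 ^ P.natDegree ≤ Fintype.card K ^ P.natDegree :=
    Nat.pow_le_pow_left Fintype.one_lt_card _
  exact (Nat.lt_two_pow_self.le.trans h3).trans h1

/-- **The forms `r_j f + 1`.** -/
theorem us_asy (K : Type) [Field K] [Fintype K] [CharP K 2] (k : ℕ) (ε : ℝ) (hε : 0 < ε) :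
    ∃ κ : ℝ, 0 < κ ∧ ∃ M N : ℕ, ∀ n m : ℕ, N ≤ n → M ≤ m → (m : ℝ) ≤ κ * n →
      ∀ r : Fin k → K[X], Function.Injective r →
      (∀ j, r j ≠ 0 ∧ ((r j).natDegree : ℝ) ≤ κ * n) →
      |((Us K r (fun _ => 1) n m).card : ℝ) - Vu r (fun _ => 1) m * (Fintype.card K : ℝ) ^ n| ≤
        ε * (Vu r (fun _ => 1) m * (Fintype.card K : ℝ) ^ n) ∧
      ∀ σ : Fin k → ℤ, (∀ i, σ i = 1 ∨ σ i = -1) →
        |(((Us K r (fun _ => 1) n m).filter (fun f => ∀ i, lio (r i * f + 1) = σ i)).card : ℝ) -
          Vu r (fun _ => 1) m * (Fintype.card K : ℝ) ^ n / 2 ^ k| ≤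
            ε * (Vu r (fun _ => 1) m * (Fintype.card K : ℝ) ^ n) := by
  obtain ⟨κ, hκ, n₀, h⟩ := us_patt s_uss s_usv K k ε hε
  refine ⟨κ, hκ, k + 1, n₀ + 1, fun n m hn hm hmκ r hr hrd => ?_⟩
  by_cases hadm : Adm r (fun _ => (1 : K[X]))
  · obtain ⟨-, h1, h2⟩ := h n (by omega) m r (fun _ => 1) (by omega) hmκ
      ⟨fun i => ⟨(hrd i).1, (hrd i).2, by rw [natDegree_one]; omega⟩, fun i j hij => by
        rw [mul_one, mul_one]
        exact fun h => hij (hr h)⟩ hadm
    exact ⟨h1, h2⟩
  · -- everything is zero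
    unfold Adm at hadm
    push Not at hadm
    obtain ⟨P, hP, hPi, hx⟩ := hadm
    have hPd := obs_deg hP hPi hx
    have hPm : P ∈ PU K m := mem_PU.2 ⟨hP, hPi, by omega⟩
    have hV : Vu r (fun _ => (1 : K[X])) m = 0 := by
      unfold Vu
      refine Finset.prod_eq_zero hPm ?_
      have h1 : om r (fun _ => (1 : K[X])) P = Fintype.card K ^ P.natDegree := by
        unfold om
        rw [← (Pool.Agent.H985.KP.Cnt.card_degLT P.natDegree).2, ← degree_eq_natDegree hP.ne_zero]
        congr 1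
        ext x
        exact ⟨fun h => h.1, fun h => ⟨h, hx x⟩⟩
      rw [h1]
      have h2 : (0 : ℝ) < (Fintype.card K : ℝ) ^ P.natDegree := by
        have : (0 : ℝ) < Fintype.card K := by exact_mod_cast Fintype.card_pos
        positivity
      push_cast
      rw [div_self h2.ne', sub_self]
    have hU : Us K r (fun _ => (1 : K[X])) n m = ∅ := by
      rw [Finset.eq_empty_iff_forall_notMem]
      intro f hf
      rw [mem_Us] at hf
      obtain ⟨i, hi⟩ := hx f
      have h3 := hf.2 i P hP hPi hi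
      omega
    rw [hV, hU]
    simp

end Pool.Agent.H985.US
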